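import Mathlib

/-!
Compact convex sets with Lindelöf set of extreme points: countable families of functionals under
which all extreme points go to extreme points, and Baire sets determined by countably many
functionals.
-/

set_option autoImplicit false

namespace Pool.Agent.V5helper27.EXT

open Set TopologicalSpace Filter Topology MeasureTheory

theorem exists_pos_le {ι : Type*} (t : Finset ι) (f : ι → ℝ) (hf : ∀ i ∈ t, 0 < f i) :
    ∃ δ : ℝ, 0 < δ ∧ ∀ i ∈ t, δ ≤ f i := by
  classical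
  induction t using Finset.induction_on with
  | empty => exact ⟨1, one_pos, by simp⟩
  | insert a t ha ih =>
    obtain ⟨δ, hδ, h⟩ := ih fun i hi => hf i (Finset.mem_insert_of_mem hi)
    refine ⟨min δ (f a), lt_min hδ (hf a (Finset.mem_insert_self a t)), fun i hi => ?_⟩
    rcases Finset.mem_insert.1 hi with rfl | hi
    · exact min_le_right _ _
    · exact (min_le_left _ _).trans (h i hi)

variable {E : Type*} [AddCommGroup E] [Module ℝ E] [TopologicalSpace E] [IsTopologicalAddGroup E]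
  [ContinuousSMul ℝ E] [LocallyConvexSpace ℝ E] [T2Space E]

/-- finitely many functionals see a compact set away from a point -/
theorem exists_finite_sep {K : Set E} (hK : IsCompact K) {x : E} (hx : x ∉ K) :
    ∃ (s : Finset (E →L[ℝ] ℝ)) (δ : ℝ), 0 < δ ∧ ∀ z ∈ K, ∃ l ∈ s, δ ≤ |l z - l x| := by
  classical
  have hsep : ∀ z ∈ K, ∃ l : E →L[ℝ] ℝ, l z ≠ l x := by
    intro z hz
    have hne : z ≠ x := fun h => hx (h ▸ hz)
    obtain ⟨l, hl⟩ := SeparatingDual.exists_separating_of_ne (R := ℝ) hne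
    exact ⟨l, hl⟩
  choose! l hl using hsep
  have hpos : ∀ z ∈ K, 0 < |l z z - l z x| := fun z hz => abs_pos.2 (sub_ne_zero.2 (hl z hz))
  obtain ⟨t, htK, ht⟩ := hK.elim_nhds_subcover
    (fun z => {w : E | |l z z - l z x| / 2 < |l z w - l z x|}) (fun z hz => by
      have hc : Continuous fun w : E => |l z w - l z x| :=
        (((l z).continuous).sub continuous_const).abs
      exact (isOpen_lt continuous_const hc).mem_nhds (by
        have := hpos z hz
        simp only [mem_setOf_eq]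
        linarith))
  obtain ⟨δ, hδ, h⟩ := exists_pos_le t (fun z => |l z z - l z x| / 2) (fun z hz => by
    have := hpos z (htK z hz)
    positivity)
  refine ⟨t.image l, δ, hδ, fun z hz => ?_⟩
  obtain ⟨z0, hz0, hz0t⟩ := mem_iUnion₂.1 (ht hz)
  exact ⟨l z0, Finset.mem_image_of_mem _ hz0, (h z0 hz0).trans (le_of_lt hz0t)⟩

theorem local_ext {X : Set E} (hX : IsCompact X) {t : E} (ht : t ∈ X.extremePoints ℝ)
    (l : E →L[ℝ] ℝ) (k : ℕ) :
    ∃ (s : Finset (E →L[ℝ] ℝ)) (δ : ℝ), 0 < δ ∧ ∀ x ∈ X, ∀ y ∈ X,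
      (∀ m ∈ s, |m ((1 / 2 : ℝ) • (x + y)) - m t| < δ) → |l x - l y| < 1 / ((k : ℝ) + 1) := by
  set S : Set (E × E) := (X ×ˢ X) ∩ {p | 1 / ((k : ℝ) + 1) ≤ |l p.1 - l p.2|} with hS
  have hc : Continuous fun p : E × E => |l p.1 - l p.2| :=
    ((l.continuous.comp continuous_fst).sub (l.continuous.comp continuous_snd)).abs
  have hScomp : IsCompact S := (hX.prod hX).inter_right (isClosed_le continuous_const hc)
  have hmid : Continuous fun p : E × E => (1 / 2 : ℝ) • (p.1 + p.2) :=
    (continuous_fst.add continuous_snd).const_smul _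
  have hK := hScomp.image hmid
  have htK : t ∉ (fun p : E × E => (1 / 2 : ℝ) • (p.1 + p.2)) '' S := by
    rintro ⟨⟨x, y⟩, ⟨⟨hx, hy⟩, hxy⟩, he⟩
    have hseg : t ∈ openSegment ℝ x y := by
      refine ⟨1 / 2, 1 / 2, by norm_num, by norm_num, by norm_num, ?_⟩
      rw [← he]; exact (smul_add _ _ _).symm
    have hx' : x = t := ht.2 hx hy hseg
    have hy' : y = t := ht.2 hy hx (by rwa [openSegment_symm])
    simp only [mem_setOf_eq] at hxy
    rw [hx', hy', sub_self, abs_zero] at hxy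
    have : (0 : ℝ) < 1 / ((k : ℝ) + 1) := by positivity
    linarith
  obtain ⟨s, δ, hδ, h⟩ := exists_finite_sep hK htK
  refine ⟨s, δ, hδ, fun x hx y hy hm => ?_⟩
  by_contra hcon
  push Not at hcon
  obtain ⟨m, hms, hm2⟩ := h _ ⟨(x, y), ⟨⟨hx, hy⟩, hcon⟩, rfl⟩
  exact absurd (hm m hms) (not_lt.2 hm2)

/-- the family `D` of functionals carries extreme points to extreme points -/
def Cl (X : Set E) (D : Set (E →L[ℝ] ℝ)) : Prop :=
  ∀ t ∈ X.extremePoints ℝ, ∀ x ∈ X, ∀ y ∈ X,
    (∀ m ∈ D, m ((1 / 2 : ℝ) • (x + y)) = m t) → ∀ l ∈ D, l x = l y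

theorem step {X : Set E} (hX : IsCompact X) (hL : IsLindelof (X.extremePoints ℝ))
    {D : Set (E →L[ℝ] ℝ)} (hD : D.Countable) :
    ∃ D' : Set (E →L[ℝ] ℝ), D'.Countable ∧ D ⊆ D' ∧ ∀ t ∈ X.extremePoints ℝ, ∀ x ∈ X, ∀ y ∈ X,
      (∀ m ∈ D', m ((1 / 2 : ℝ) • (x + y)) = m t) → ∀ l ∈ D, l x = l y := by
  classical
  have hloc := fun (l : E →L[ℝ] ℝ) (k : ℕ) (t : E) (ht : t ∈ X.extremePoints ℝ) =>
    local_ext hX ht l k
  choose! s δ hδ hsδ using hloc
  have hcov : ∀ (l : E →L[ℝ] ℝ) (k : ℕ), ∃ C : Set E, C.Countable ∧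
      (∀ x ∈ C, x ∈ X.extremePoints ℝ) ∧
      X.extremePoints ℝ ⊆ ⋃ t ∈ C, {w : E | ∀ m ∈ s l k t, |m w - m t| < δ l k t} := by
    intro l k
    refine hL.elim_nhds_subcover _ (fun t ht => ?_)
    have : {w : E | ∀ m ∈ s l k t, |m w - m t| < δ l k t} =
        ⋂ m ∈ s l k t, {w : E | |m w - m t| < δ l k t} := by
      ext w; simp
    rw [this, Filter.biInter_finset_mem]
    intro m _
    have hc : Continuous fun w : E => |m w - m t| := ((m.continuous).sub continuous_const).abs
    exact (isOpen_lt hc continuous_const).mem_nhds (by simpa using hδ l k t ht)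
  choose C hC1 hC2 hC3 using hcov
  refine ⟨D ∪ ⋃ l ∈ D, ⋃ k : ℕ, ⋃ t ∈ C l k, (s l k t : Set (E →L[ℝ] ℝ)), ?_,
    subset_union_left, ?_⟩
  · refine hD.union (hD.biUnion fun l _ => countable_iUnion fun k => (hC1 l k).biUnion
      fun t _ => (s l k t).countable_toSet)
  · intro t ht x hx y hy hm l hl
    by_contra hne
    have hpos : 0 < |l x - l y| := abs_pos.2 (sub_ne_zero.2 hne)
    obtain ⟨k, hk⟩ := exists_nat_one_div_lt hpos
    obtain ⟨t', ht', htt'⟩ := mem_iUnion₂.1 (hC3 l k ht)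
    have h1 := hsδ l k t' (hC2 l k t' ht') x hx y hy (fun m hms => by
      rw [hm m (Or.inr (mem_biUnion hl (mem_iUnion.2 ⟨k, mem_biUnion ht' hms⟩)))]
      exact htt' m hms)
    linarith

theorem exists_closed {X : Set E} (hX : IsCompact X) (hL : IsLindelof (X.extremePoints ℝ))
    {D : Set (E →L[ℝ] ℝ)} (hD : D.Countable) :
    ∃ D' : Set (E →L[ℝ] ℝ), D'.Countable ∧ D ⊆ D' ∧ Cl X D' := by
  classical
  have hst := fun (D : Set (E →L[ℝ] ℝ)) (hD : D.Countable) => step hX hL hD
  choose! nx h1 h2 h3 using hst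
  let S : ℕ → Set (E →L[ℝ] ℝ) := fun n => nx^[n] D
  have hS0 : S 0 = D := rfl
  have hSs : ∀ n, S (n + 1) = nx (S n) := fun n => Function.iterate_succ_apply' nx n D
  have hSc : ∀ n, (S n).Countable := by
    intro n
    induction n with
    | zero => exact hD
    | succ n ih => rw [hSs]; exact h1 _ ih
  refine ⟨⋃ n, S n, countable_iUnion hSc, subset_iUnion S 0, ?_⟩
  intro t ht x hx y hy hm l hl
  obtain ⟨n, hn⟩ := mem_iUnion.1 hl
  refine h3 (S n) (hSc n) t ht x hx y hy (fun m hms => hm m ?_) l hn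
  rw [← hSs] at hms
  exact mem_iUnion.2 ⟨n + 1, hms⟩

/-- the map given by a sequence of functionals -/
def ev (l : ℕ → (E →L[ℝ] ℝ)) (x : E) : ℕ → ℝ := fun n => l n x

theorem continuous_ev (l : ℕ → (E →L[ℝ] ℝ)) : Continuous (ev l) :=
  continuous_pi fun n => (l n).continuous

theorem ev_add (l : ℕ → (E →L[ℝ] ℝ)) (x y : E) (a b : ℝ) :
    ev l (a • x + b • y) = a • ev l x + b • ev l y := by
  funext n
  simp [ev]

theorem ext_of_mid {V : Type*} [AddCommGroup V] [Module ℝ V] {Y : Set V} (hY : Convex ℝ Y)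
    {p : V} (hp : p ∈ Y)
    (h : ∀ a ∈ Y, ∀ b ∈ Y, (1 / 2 : ℝ) • (a + b) = p → a = b) : p ∈ Y.extremePoints ℝ := by
  -- if the weight of `a` is at least one half then `a = p`
  have key : ∀ a ∈ Y, ∀ b ∈ Y, ∀ α β : ℝ, 1 / 2 ≤ α → 0 < β → α + β = 1 → α • a + β • b = p →
      a = p := by
    intro a ha b hb α β hα hβ hαβ he
    have hb' : (2 * α - 1) • a + (2 * β) • b ∈ Y :=
      hY ha hb (by linarith) (by linarith) (by linarith)
    have h1 := h a ha _ hb' (by
      rw [← he]
      module)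
    rw [← h1] at hb'
    have h2 : (1 / 2 : ℝ) • (a + ((2 * α - 1) • a + (2 * β) • b)) = p := by
      rw [← he]; module
    rw [← h1] at h2
    rw [← h2]
    module
  refine ⟨hp, fun a ha b hb hseg => ?_⟩
  obtain ⟨α, β, hα, hβ, hαβ, he⟩ := hseg
  rcases le_total (1 / 2) α with h1 | h1
  · exact key a ha b hb α β h1 hβ hαβ he
  · have h2 := key b hb a ha β α (by linarith) hα (by linarith) (by rw [add_comm]; exact he)
    rw [h2] at he
    have h3 : α • a = α • p := by
      have : p = (α + β) • p := by rw [hαβ, one_smul]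
      have h4 : α • a + β • p = α • p + β • p := by
        rw [he, ← add_smul, hαβ, one_smul]
      exact add_right_cancel h4
    exact smul_right_injective V hα.ne' h3

theorem ev_image_ext {X : Set E} (hX : IsCompact X) (hconv : Convex ℝ X)
    {l : ℕ → (E →L[ℝ] ℝ)} (hl : Cl X (range l)) :
    ev l '' (X.extremePoints ℝ) = (ev l '' X).extremePoints ℝ := by
  have hYconv : Convex ℝ (ev l '' X) := by
    rintro _ ⟨x, hx, rfl⟩ _ ⟨y, hy, rfl⟩ a b ha hb hab
    exact ⟨a • x + b • y, hconv hx hy ha hb hab, ev_add l x y a b⟩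
  apply Subset.antisymm
  · rintro _ ⟨t, ht, rfl⟩
    apply ext_of_mid hYconv ⟨t, ht.1, rfl⟩
    rintro _ ⟨x, hx, rfl⟩ _ ⟨y, hy, rfl⟩ he
    have h1 := hl t ht x hx y hy (by
      rintro _ ⟨n, rfl⟩
      have := congrFun he n
      simpa [ev, mul_add] using this)
    funext n
    exact h1 (l n) ⟨n, rfl⟩
  · intro p hp
    obtain ⟨x0, hx0, hpx0⟩ := hp.1
    set Fc : Set E := X ∩ ev l ⁻¹' {p} with hF
    have hFc : IsCompact Fc := hX.inter_right (isClosed_singleton.preimage (continuous_ev l))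
    obtain ⟨t, ht⟩ := hFc.extremePoints_nonempty ⟨x0, hx0, hpx0⟩
    refine ⟨t, ⟨ht.1.1, fun x hx y hy hseg => ?_⟩, ht.1.2⟩
    obtain ⟨α, β, hα, hβ, hαβ, he⟩ := hseg
    have hseg' : p ∈ openSegment ℝ (ev l x) (ev l y) := by
      refine ⟨α, β, hα, hβ, hαβ, ?_⟩
      rw [← ev_add, he]
      exact ht.1.2
    have h1 : ev l x = p := hp.2 ⟨x, hx, rfl⟩ ⟨y, hy, rfl⟩ hseg'
    have h2 : ev l y = p := hp.2 ⟨y, hy, rfl⟩ ⟨x, hx, rfl⟩ (by rwa [openSegment_symm])
    exact ht.2 ⟨hx, h1⟩ ⟨hy, h2⟩ ⟨α, β, hα, hβ, hαβ, he⟩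

theorem measurable_ext {Y : Set (ℕ → ℝ)} (hY : IsCompact Y) (hconv : Convex ℝ Y) :
    MeasurableSet (Y.extremePoints ℝ) := by
  have key : Y.extremePoints ℝ = Y \ ⋃ (n : ℕ) (k : ℕ),
      (fun p : (ℕ → ℝ) × (ℕ → ℝ) => (1 / 2 : ℝ) • (p.1 + p.2)) ''
        ((Y ×ˢ Y) ∩ {p | 1 / ((k : ℝ) + 1) ≤ |p.1 n - p.2 n|}) := by
    apply Subset.antisymm
    · intro p hp
      refine ⟨hp.1, fun hcon => ?_⟩
      simp only [mem_iUnion] at hcon
      obtain ⟨n, k, ⟨a, b⟩, ⟨⟨ha, hb⟩, hab⟩, he⟩ := hcon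
      have hseg : p ∈ openSegment ℝ a b := by
        refine ⟨1 / 2, 1 / 2, by norm_num, by norm_num, by norm_num, ?_⟩
        rw [← he]; exact (smul_add _ _ _).symm
      have h1 : a = p := hp.2 ha hb hseg
      have h2 : b = p := hp.2 hb ha (by rwa [openSegment_symm])
      simp only [mem_setOf_eq] at hab
      rw [h1, h2, sub_self, abs_zero] at hab
      have : (0 : ℝ) < 1 / ((k : ℝ) + 1) := by positivity
      linarith
    · rintro p ⟨hp, hcon⟩
      apply ext_of_mid hconv hp
      intro a ha b hb he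
      by_contra hne
      obtain ⟨n, hn⟩ := Function.ne_iff.1 hne
      have hpos : 0 < |a n - b n| := abs_pos.2 (sub_ne_zero.2 hn)
      obtain ⟨k, hk⟩ := exists_nat_one_div_lt hpos
      exact hcon (mem_iUnion.2 ⟨n, mem_iUnion.2 ⟨k, (a, b), ⟨⟨ha, hb⟩, hk.le⟩, he⟩⟩)
  rw [key]
  refine hY.measurableSet.diff (MeasurableSet.iUnion fun n => MeasurableSet.iUnion fun k => ?_)
  apply IsCompact.measurableSet
  refine IsCompact.image ((hY.prod hY).inter_right (isClosed_le continuous_const ?_)) ?_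
  · fun_prop
  · fun_prop

/-- The Baire σ-algebra of a topological space: it is generated by the zero sets of the
continuous real functions. -/
def baireSigma (T : Type*) [TopologicalSpace T] : MeasurableSpace T :=
  MeasurableSpace.generateFrom {Z | ∃ g : T → ℝ, Continuous g ∧ Z = g ⁻¹' {0}}

/-- Baire sets of the set of extreme points depend on countably many functionals. -/
theorem dep_of_baire {X : Set E} (hX : IsCompact X) (hL : IsLindelof (X.extremePoints ℝ))
    (B : Set (X.extremePoints ℝ)) (hB : MeasurableSet[baireSigma (X.extremePoints ℝ)] B) :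
    ∃ (l : ℕ → (E →L[ℝ] ℝ)) (B' : Set (ℕ → ℝ)), MeasurableSet B' ∧
      ∀ t : X.extremePoints ℝ, t ∈ B ↔ ev l t ∈ B' := by
  classical
  haveI hLS : LindelofSpace (X.extremePoints ℝ) := isLindelof_iff_lindelofSpace.1 hL
  refine MeasurableSpace.generateFrom_induction _
    (fun B _ => ∃ (l : ℕ → (E →L[ℝ] ℝ)) (B' : Set (ℕ → ℝ)), MeasurableSet B' ∧
      ∀ t : X.extremePoints ℝ, t ∈ B ↔ ev l t ∈ B') ?_ ?_ ?_ ?_ B hB
  · rintro Z ⟨g, hg, rfl⟩ -
    have hO : IsLindelof {t : X.extremePoints ℝ | g t ≠ 0} := by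
      have : {t : X.extremePoints ℝ | g t ≠ 0} =
          ⋃ k : ℕ, {t : X.extremePoints ℝ | 1 / ((k : ℝ) + 1) ≤ |g t|} := by
        ext t
        simp only [mem_setOf_eq, mem_iUnion]
        constructor
        · intro h
          obtain ⟨k, hk⟩ := exists_nat_one_div_lt (abs_pos.2 h)
          exact ⟨k, hk.le⟩
        · rintro ⟨k, hk⟩ h0
          rw [h0, abs_zero] at hk
          have : (0 : ℝ) < 1 / ((k : ℝ) + 1) := by positivity
          linarith
      rw [this]
      exact isLindelof_iUnion fun k => (isClosed_le continuous_const hg.abs).isLindelof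
    have hloc : ∀ t : X.extremePoints ℝ, g t ≠ 0 →
        ∃ (s : Finset (E →L[ℝ] ℝ)) (δ : ℝ), 0 < δ ∧ ∀ t' : X.extremePoints ℝ,
          (∀ m ∈ s, |m t' - m t| < δ) → g t' ≠ 0 := by
      intro t ht
      have hop : IsOpen {t : X.extremePoints ℝ | g t ≠ 0} := isOpen_ne_fun hg continuous_const
      obtain ⟨V, hV, hVg⟩ := isOpen_induced_iff.1 hop
      have htV : (t : E) ∈ V := by
        have : t ∈ Subtype.val ⁻¹' V := by rw [hVg]; exact ht
        exact this
      obtain ⟨s, δ, hδ, h⟩ := exists_finite_sep (hX.diff hV) (x := (t : E)) (fun h => h.2 htV)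
      refine ⟨s, δ, hδ, fun t' ht' => ?_⟩
      have ht'V : (t' : E) ∈ V := by
        by_contra hcon
        obtain ⟨m, hm, hm2⟩ := h t' ⟨t'.2.1, hcon⟩
        exact absurd (ht' m hm) (not_lt.2 hm2)
      have : t' ∈ Subtype.val ⁻¹' V := ht'V
      rw [hVg] at this
      exact this
    choose! s δ hδ hs using hloc
    obtain ⟨C, hC1, hC2, hC3⟩ := hO.elim_nhds_subcover
      (fun t => {t' : X.extremePoints ℝ | ∀ m ∈ s t, |m t' - m t| < δ t}) (fun t ht => by
        have : {t' : X.extremePoints ℝ | ∀ m ∈ s t, |m t' - m t| < δ t} =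
            ⋂ m ∈ s t, {t' : X.extremePoints ℝ | |m t' - m t| < δ t} := by
          ext w; simp
        rw [this, Filter.biInter_finset_mem]
        intro m _
        have hc : Continuous fun t' : X.extremePoints ℝ => |m t' - m t| :=
          ((m.continuous.comp continuous_subtype_val).sub continuous_const).abs
        exact (isOpen_lt hc continuous_const).mem_nhds (by simpa using hδ t ht))
    have hDc : (insert 0 (⋃ t ∈ C, (s t : Set (E →L[ℝ] ℝ)))).Countable :=
      (hC1.biUnion fun t _ => (s t).countable_toSet).insert 0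
    obtain ⟨l, hl⟩ := hDc.exists_eq_range (insert_nonempty _ _)
    have hidx : ∀ m ∈ (⋃ t ∈ C, (s t : Set (E →L[ℝ] ℝ))), ∃ n, l n = m := by
      intro m hm
      have : m ∈ range l := by rw [← hl]; exact mem_insert_of_mem _ hm
      exact this
    choose! idx hidx using hidx
    refine ⟨l, (⋃ t ∈ C, ⋂ m ∈ s t, {w : ℕ → ℝ | |w (idx m) - m t| < δ t})ᶜ, ?_, ?_⟩
    · refine (MeasurableSet.biUnion hC1 fun t _ => ?_).compl
      refine Finset.measurableSet_biInter _ fun m _ => ?_
      refine (isOpen_lt ?_ continuous_const).measurableSet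
      fun_prop
    · intro t
      have hiff : (t : X.extremePoints ℝ) ∈ g ⁻¹' {0} ↔ ¬ (g t ≠ 0) := by simp
      rw [hiff, mem_compl_iff, not_iff_not]
      simp only [mem_iUnion, mem_iInter, mem_setOf_eq]
      constructor
      · intro ht
        obtain ⟨t0, ht0, h0⟩ := mem_iUnion₂.1 (hC3 ht)
        refine ⟨t0, ht0, fun m hm => ?_⟩
        have : ev l t (idx m) = m t := by
          show l (idx m) t = m t
          rw [hidx m (mem_biUnion ht0 hm)]
        rw [this]
        exact h0 m hm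
      · rintro ⟨t0, ht0, h0⟩
        refine hs t0 (hC2 t0 ht0) t (fun m hm => ?_)
        have h1 := h0 m hm
        have : ev l t (idx m) = m t := by
          show l (idx m) t = m t
          rw [hidx m (mem_biUnion ht0 hm)]
        rw [this] at h1
        exact h1
  · exact ⟨fun _ => 0, ∅, MeasurableSet.empty, fun t => by simp⟩
  · rintro B - ⟨l, B', hB', h⟩
    exact ⟨l, B'ᶜ, hB'.compl, fun t => by rw [mem_compl_iff, mem_compl_iff, h t]⟩
  · rintro f - hf
    choose l B' hB' h using hf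
    refine ⟨fun n => l (Nat.unpair n).1 (Nat.unpair n).2,
      ⋃ k, (fun w : ℕ → ℝ => fun n => w (Nat.pair k n)) ⁻¹' B' k,
      MeasurableSet.iUnion fun k => ?_, fun t => ?_⟩
    · refine (hB' k).preimage ?_
      exact measurable_pi_lambda _ fun n => measurable_pi_apply _
    · simp only [mem_iUnion]
      refine exists_congr fun k => ?_
      rw [h k t]
      have : (fun n => ev (fun n => l (Nat.unpair n).1 (Nat.unpair n).2) (t : E)
          (Nat.pair k n)) = ev (l k) t := by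
        funext n
        simp [ev]
      rw [mem_preimage, this]

end Pool.Agent.V5helper27.EXT
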