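import Mathlib
import Pool.Agent.Helper520.CD.Myc

/-!
If every subset of the Cantor space has a Borel preimage in a Borel set `Z` under a Borel map
`h`, then `h '' Z` is countable.
-/

set_option autoImplicit false

namespace Pool.Agent.V5helper27.EXT

open Set TopologicalSpace Filter Topology MeasureTheory Cardinal

/-- A continuous map on a Polish space with uncountable range is injective on a set of the
size of the continuum. -/
theorem cantor_of_uncountable {Z : Type} [TopologicalSpace Z] [PolishSpace Z]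
    {W : Type} [TopologicalSpace W] [T2Space W] (h : Z → W) (hc : Continuous h)
    (hunc : ¬ (range h).Countable) :
    ∃ c : (ℕ → Bool) → Z, ∀ b b', b ≠ b' → h (c b) ≠ h (c b') := by
  classical
  obtain ⟨S, -, hS⟩ := (surjOn_image h univ).exists_bijOn_subset
  rw [image_univ] at hS
  have hSu : ¬ S.Countable := fun hSc => hunc (by
    rw [← hS.image_eq]; exact hSc.image h)
  set O : Set Z := ⋃₀ {B | B ∈ countableBasis Z ∧ (B ∩ S).Countable} with hO
  have hOS : (O ∩ S).Countable := by
    have h1 : O ∩ S ⊆ ⋃ B ∈ {B | B ∈ countableBasis Z ∧ (B ∩ S).Countable}, B ∩ S := by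
      rintro x ⟨⟨B, hB, hx⟩, hxR⟩
      exact mem_biUnion hB ⟨hx, hxR⟩
    refine Countable.mono h1 (Countable.biUnion ?_ fun B hB => hB.2)
    exact (countable_countableBasis Z).mono fun B hB => hB.1
  set Y : Set Z := S \ O with hY
  have hYu : ∀ U : Set Z, IsOpen U → (U ∩ Y).Nonempty → ¬ (U ∩ Y).Countable := by
    intro U hU ⟨x, hxU, hxR, hxO⟩ hcc
    obtain ⟨B, hB, hxB, hBU⟩ := (isBasis_countableBasis Z).exists_subset_of_mem_open hxU hU
    have h1 : ¬ (B ∩ S).Countable := fun h1 => hxO ⟨B, ⟨hB, h1⟩, hxB⟩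
    apply h1
    refine (hcc.union hOS).mono ?_
    rintro y ⟨hyB, hyR⟩
    by_cases hy : y ∈ O
    · exact Or.inr ⟨hy, hyR⟩
    · exact Or.inl ⟨hBU hyB, hyR, hy⟩
  have hYn : Y.Nonempty := by
    by_contra hcon
    rw [not_nonempty_iff_eq_empty] at hcon
    apply hSu
    refine hOS.mono fun y hy => ?_
    by_contra h5
    have : y ∈ Y := ⟨hy, fun h6 => h5 ⟨h6, hy⟩⟩
    rw [hcon] at this
    exact this
  set G : Set Z := closure Y with hG
  have hGp : PolishSpace G := isClosed_closure.polishSpace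
  have hGn : Nonempty G := hYn.closure.to_subtype
  obtain ⟨c, hcc⟩ := Pool.Agent.Helper520.CD.mycielski' (G := G)
    (fun _ : ℕ => {p : G × G | h p.1 ≠ h p.2}) (fun _ => by
      exact isOpen_ne_fun (hc.comp (continuous_subtype_val.comp continuous_fst))
        (hc.comp (continuous_subtype_val.comp continuous_snd))) (fun _ => by
      rintro ⟨x, y⟩
      rw [mem_closure_iff_nhds]
      intro N hN
      rw [nhds_prod_eq, Filter.mem_prod_iff] at hN
      obtain ⟨U, hU, V, hV, hUV⟩ := hN
      rw [nhds_subtype, mem_comap] at hU hV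
      obtain ⟨U', hU', hUU⟩ := hU
      obtain ⟨V', hV', hVV⟩ := hV
      obtain ⟨U1, hU1, hU1o, hxU⟩ := mem_nhds_iff.1 hU'
      obtain ⟨V1, hV1, hV1o, hyV⟩ := mem_nhds_iff.1 hV'
      have h1 : (U1 ∩ Y).Nonempty := mem_closure_iff.1 x.2 U1 hU1o hxU
      have h2 : (V1 ∩ Y).Nonempty := mem_closure_iff.1 y.2 V1 hV1o hyV
      obtain ⟨y2, hy2, hy2Y⟩ := h2
      have h3 := hYu U1 hU1o h1
      obtain ⟨y1, ⟨hy1, hy1Y⟩, hne⟩ : ∃ y1 ∈ U1 ∩ Y, y1 ≠ y2 := by
        by_contra hcon
        push Not at hcon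
        exact h3 ((countable_singleton y2).mono fun z hz => hcon z hz)
      refine ⟨(⟨y1, subset_closure hy1Y⟩, ⟨y2, subset_closure hy2Y⟩), hUV ⟨?_, ?_⟩, ?_⟩
      · exact hUU (hU1 hy1)
      · exact hVV (hV1 hy2)
      · intro heq
        exact hne (hS.injOn hy1Y.1 hy2Y.1 heq))
  exact ⟨fun b => (c b : Z), fun b b' hb => hcc b b' hb 0⟩

theorem cantor_of_standard {α : Type} [MeasurableSpace α] [StandardBorelSpace α]
    (g : α → (ℕ → Bool)) (hg : Measurable g) (hunc : ¬ (range g).Countable) :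
    ∃ c : (ℕ → Bool) → α, ∀ b b', b ≠ b' → g (c b) ≠ g (c b') := by
  letI := upgradeStandardBorel α
  obtain ⟨t', -, hcont, hpol⟩ := hg.exists_continuous
  exact @cantor_of_uncountable α t' hpol (ℕ → Bool) _ _ g hcont hunc

theorem image_countable_of_all_measurable {Z : Set (ℕ → ℝ)} (hZ : MeasurableSet Z)
    {h : (ℕ → ℝ) → (ℕ → Bool)} (hh : Measurable h)
    (hall : ∀ S : Set (ℕ → Bool), MeasurableSet {y | y ∈ Z ∧ h y ∈ S}) :
    (h '' Z).Countable := by
  by_contra hunc
  have : StandardBorelSpace Z := hZ.standardBorel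
  have hm : Measurable (fun z : Z => h z) := hh.comp measurable_subtype_coe
  have hr : ¬ (range (fun z : Z => h z)).Countable := by
    intro h1
    apply hunc
    have : range (fun z : Z => h z) = h '' Z := by
      ext w; simp
    rwa [this] at h1
  obtain ⟨c, hc⟩ := cantor_of_standard (fun z : Z => h z) hm hr
  have hinj : Function.Injective (fun W : Set (ℕ → Bool) =>
      (⟨{y | y ∈ Z ∧ h y ∈ (fun b => h (c b)) '' W}, hall _⟩ :
        {s : Set (ℕ → ℝ) // MeasurableSet s})) := by
    intro W W' hW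
    have hW' : {y | y ∈ Z ∧ h y ∈ (fun b => h (c b)) '' W} =
      {y | y ∈ Z ∧ h y ∈ (fun b => h (c b)) '' W'} := congrArg Subtype.val hW
    have key : ∀ (V : Set (ℕ → Bool)) (b : ℕ → Bool),
        (c b : ℕ → ℝ) ∈ {y | y ∈ Z ∧ h y ∈ (fun b => h (c b)) '' V} ↔ b ∈ V := by
      intro V b
      constructor
      · rintro ⟨-, b', hb', he⟩
        by_contra hb
        have : b' ≠ b := fun h => hb (h ▸ hb')
        exact hc b' b this he
      · intro hb
        exact ⟨(c b).2, b, hb, rfl⟩
    ext b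
    rw [← key W b, hW', key W' b]
  have h1 := Cardinal.mk_le_of_injective hinj
  have h2 : #{s : Set (ℕ → ℝ) // MeasurableSet s} ≤ 𝔠 := by
    have := MeasurableSpace.cardinal_measurableSet_le_continuum
      (s := MeasurableSpace.countableGeneratingSet (ℕ → ℝ)) (by
        exact (MeasurableSpace.countable_countableGeneratingSet).le_aleph0.trans
          Cardinal.aleph0_le_continuum)
    rwa [MeasurableSpace.generateFrom_countableGeneratingSet] at this
  have h3 : #(Set (ℕ → Bool)) = 2 ^ 𝔠 := by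
    rw [Cardinal.mk_set]; simp
  rw [h3] at h1
  exact absurd (h1.trans h2) (not_le.2 (Cardinal.cantor 𝔠))

end Pool.Agent.V5helper27.EXT
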