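import Mathlib
import Pool.Agent.V5helper27.EXT.Perf
import Pool.Agent.V5helper27.EXT.Geo

/-!
Baire measurable maps on a Lindelöf set of extreme points have separable range.
-/

set_option autoImplicit false

namespace Pool.Agent.V5helper27.EXT

open Set TopologicalSpace Filter Topology MeasureTheory

section

variable {E : Type*} [AddCommGroup E] [Module ℝ E] [TopologicalSpace E] [IsTopologicalAddGroup E]
  [ContinuousSMul ℝ E] [LocallyConvexSpace ℝ E] [T2Space E]

omit [IsTopologicalAddGroup E] [ContinuousSMul ℝ E] [LocallyConvexSpace ℝ E] [T2Space E] in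
/-- reindexing a sequence of functionals -/
theorem reindex {l l' : ℕ → (E →L[ℝ] ℝ)} (h : range l ⊆ range l') :
    ∃ p : (ℕ → ℝ) → (ℕ → ℝ), Continuous p ∧ ∀ x : E, p (ev l' x) = ev l x := by
  have hidx : ∀ n, ∃ k, l' k = l n := fun n => h ⟨n, rfl⟩
  choose k hk using hidx
  refine ⟨fun w n => w (k n), continuous_pi fun n => continuous_apply _, fun x => ?_⟩
  funext n
  show l' (k n) x = l n x
  rw [hk]

theorem exists_closed_seq {X : Set E} (hX : IsCompact X) (hL : IsLindelof (X.extremePoints ℝ))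
    {D : Set (E →L[ℝ] ℝ)} (hD : D.Countable) (hne : D.Nonempty) :
    ∃ l : ℕ → (E →L[ℝ] ℝ), D ⊆ range l ∧ Cl X (range l) := by
  obtain ⟨D', hc, hs, hcl⟩ := exists_closed hX hL hD
  obtain ⟨l, hl⟩ := hc.exists_eq_range (hne.mono hs)
  exact ⟨l, hl ▸ hs, hl ▸ hcl⟩

/-- A pairwise disjoint family of nonempty sets of extreme points, all of whose partial unions are
Baire sets, and whose index set injects into the Cantor space, is countable. -/
theorem countable_of_injection {X : Set E} (hX : IsCompact X) (hconv : Convex ℝ X)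
    (hL : IsLindelof (X.extremePoints ℝ)) {ι : Type*} (B : ι → Set (X.extremePoints ℝ))
    (hne : ∀ i, (B i).Nonempty) (hdisj : ∀ i i' t, t ∈ B i → t ∈ B i' → i = i')
    (hB : ∀ J : Set ι, MeasurableSet[baireSigma (X.extremePoints ℝ)] (⋃ i ∈ J, B i))
    (j : ι → (ℕ → Bool)) (hj : Function.Injective j) : Countable ι := by
  classical
  set BJ : Set ι → Set (X.extremePoints ℝ) := fun J => ⋃ i ∈ J, B i with hBJ
  have hmem : ∀ (J : Set ι) (i : ι) (t : X.extremePoints ℝ), t ∈ B i → (t ∈ BJ J ↔ i ∈ J) := by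
    intro J i t ht
    simp only [hBJ, mem_iUnion]
    constructor
    · rintro ⟨i', hi', ht'⟩
      rw [hdisj i i' t ht ht']; exact hi'
    · intro hi
      exact ⟨i, hi, ht⟩
  have hdep := fun J : Set ι => dep_of_baire hX hL (BJ J) (hB J)
  choose lJ B' hB'm hB' using hdep
  let Jn : ℕ → Set ι := fun n => {i | j i n = true}
  obtain ⟨l, hlD, hlCl⟩ := exists_closed_seq hX hL
    (D := range (lJ univ) ∪ ⋃ n, range (lJ (Jn n)))
    ((countable_range _).union (countable_iUnion fun n => countable_range _))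
    ((range_nonempty _).mono subset_union_left)
  obtain ⟨p0, hp0c, hp0⟩ := reindex (subset_union_left.trans hlD : range (lJ univ) ⊆ range l)
  have hpn := fun n => reindex (((subset_iUnion (fun n => range (lJ (Jn n))) n).trans
    subset_union_right).trans hlD : range (lJ (Jn n)) ⊆ range l)
  choose p hpc hp using hpn
  set Z : Set (ℕ → ℝ) := (ev l '' X).extremePoints ℝ ∩ p0 ⁻¹' B' univ with hZ
  have hev : ∀ l : ℕ → (E →L[ℝ] ℝ), MeasurableSet ((ev l '' X).extremePoints ℝ) := by
    intro l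
    refine measurable_ext (hX.image (continuous_ev l)) ?_
    rintro _ ⟨x, hx, rfl⟩ _ ⟨y, hy, rfl⟩ a b ha hb hab
    exact ⟨a • x + b • y, hconv hx hy ha hb hab, ev_add l x y a b⟩
  have hZm : MeasurableSet Z := (hev l).inter (hp0c.measurable (hB'm univ))
  let h : (ℕ → ℝ) → (ℕ → Bool) := fun y n => decide (p n y ∈ B' (Jn n))
  have hh : Measurable h := by
    refine measurable_pi_lambda _ fun n => ?_
    refine measurable_to_bool ?_
    have : (fun y : ℕ → ℝ => h y n) ⁻¹' {true} = p n ⁻¹' B' (Jn n) := by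
      ext y; simp [h]
    rw [this]
    exact (hpc n).measurable (hB'm _)
  -- the key computation
  have hkey : ∀ (i : ι) (t : X.extremePoints ℝ), t ∈ B i → h (ev l t) = j i := by
    intro i t ht
    funext n
    have h1 : p n (ev l (t : E)) ∈ B' (Jn n) ↔ j i n = true := by
      rw [hp n, ← hB' (Jn n) t, hmem (Jn n) i t ht]
      rfl
    show decide (p n (ev l (t : E)) ∈ B' (Jn n)) = j i n
    rcases hb : j i n with _ | _
    · rw [hb] at h1
      simpa using h1
    · rw [hb] at h1
      simpa using h1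
  have hZeq : Z = ev l '' (Subtype.val '' BJ univ) := by
    apply Subset.antisymm
    · rintro y ⟨hy1, hy2⟩
      rw [← ev_image_ext hX hconv hlCl] at hy1
      obtain ⟨t, ht, rfl⟩ := hy1
      refine ⟨t, ⟨⟨t, ht⟩, ?_, rfl⟩, rfl⟩
      rw [hB' univ ⟨t, ht⟩]
      have : p0 (ev l t) ∈ B' univ := hy2
      rwa [hp0] at this
    · rintro _ ⟨_, ⟨t, ht, rfl⟩, rfl⟩
      refine ⟨?_, ?_⟩
      · rw [← ev_image_ext hX hconv hlCl]
        exact ⟨t, t.2, rfl⟩
      · show p0 (ev l (t : E)) ∈ B' univ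
        rw [hp0, ← hB' univ t]
        exact ht
  have himg : h '' Z = range j := by
    rw [hZeq]
    apply Subset.antisymm
    · rintro _ ⟨_, ⟨_, ⟨t, ht, rfl⟩, rfl⟩, rfl⟩
      simp only [hBJ, mem_iUnion] at ht
      obtain ⟨i, -, hi⟩ := ht
      exact ⟨i, (hkey i t hi).symm⟩
    · rintro _ ⟨i, rfl⟩
      obtain ⟨t, ht⟩ := hne i
      exact ⟨ev l t, ⟨t, ⟨t, (hmem univ i t ht).2 (mem_univ _), rfl⟩, rfl⟩, hkey i t ht⟩
  have hana : ∀ S : Set (ℕ → Bool), AnalyticSet {y | y ∈ Z ∧ h y ∈ S} := by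
    intro S
    obtain ⟨l', hl'D, hl'Cl⟩ := exists_closed_seq hX hL
      (D := range l ∪ range (lJ (j ⁻¹' S)))
      ((countable_range _).union (countable_range _))
      ((range_nonempty _).mono subset_union_left)
    obtain ⟨q, hqc, hq⟩ := reindex (subset_union_left.trans hl'D : range l ⊆ range l')
    obtain ⟨q', hq'c, hq'⟩ := reindex
      (subset_union_right.trans hl'D : range (lJ (j ⁻¹' S)) ⊆ range l')
    have heq : {y | y ∈ Z ∧ h y ∈ S} =
        q '' ((ev l' '' X).extremePoints ℝ ∩ q' ⁻¹' B' (j ⁻¹' S)) := by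
      apply Subset.antisymm
      · rintro y ⟨hy1, hy2⟩
        rw [hZeq] at hy1
        obtain ⟨_, ⟨t, ht, rfl⟩, rfl⟩ := hy1
        simp only [hBJ, mem_iUnion] at ht
        obtain ⟨i, -, hi⟩ := ht
        rw [hkey i t hi] at hy2
        refine ⟨ev l' t, ⟨?_, ?_⟩, hq t⟩
        · rw [← ev_image_ext hX hconv hl'Cl]
          exact ⟨t, t.2, rfl⟩
        · show q' (ev l' (t : E)) ∈ B' (j ⁻¹' S)
          rw [hq', ← hB' (j ⁻¹' S) t]
          exact (hmem _ i t hi).2 hy2
      · rintro _ ⟨y, ⟨hy1, hy2⟩, rfl⟩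
        rw [← ev_image_ext hX hconv hl'Cl] at hy1
        obtain ⟨t, ht, rfl⟩ := hy1
        have h3 : q' (ev l' t) ∈ B' (j ⁻¹' S) := hy2
        rw [hq', ← hB' (j ⁻¹' S) ⟨t, ht⟩] at h3
        simp only [hBJ, mem_iUnion] at h3
        obtain ⟨i, hiS, hi⟩ := h3
        rw [hq]
        refine ⟨?_, ?_⟩
        · rw [hZeq]
          exact ⟨t, ⟨⟨t, ht⟩, (hmem univ i _ hi).2 (mem_univ _), rfl⟩, rfl⟩
        · have := hkey i ⟨t, ht⟩ hi
          show h (ev l t) ∈ S
          rw [this]
          exact hiS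
    rw [heq]
    exact (((hev l').inter (hq'c.measurable (hB'm _))).analyticSet).image_of_continuous hqc
  have hcount := image_countable_of_all_measurable hZm hh (fun S => by
    refine (hana S).measurableSet_of_compl ?_
    have : {y | y ∈ Z ∧ h y ∈ S}ᶜ = Zᶜ ∪ {y | y ∈ Z ∧ h y ∈ Sᶜ} := by
      ext y
      simp only [mem_compl_iff, mem_union]
      constructor
      · intro h1
        by_cases hy : y ∈ Z
        · exact Or.inr ⟨hy, fun h2 => h1 ⟨hy, h2⟩⟩
        · exact Or.inl hy
      · rintro (h1 | h1) ⟨h2, h3⟩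
        · exact h1 h2
        · exact h1.2 h3
    rw [this, union_eq_iUnion]
    refine AnalyticSet.iUnion fun b => ?_
    cases b
    · exact hana Sᶜ
    · exact hZm.compl.analyticSet)
  rw [himg] at hcount
  have : Countable (range j) := hcount.to_subtype
  exact (Set.rangeFactorization_injective.2 hj).countable

/-- A pairwise disjoint family of nonempty sets of extreme points, all of whose partial unions are
Baire sets, is countable. -/
theorem countable_family {X : Set E} (hX : IsCompact X) (hconv : Convex ℝ X)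
    (hL : IsLindelof (X.extremePoints ℝ)) {ι : Type*} (B : ι → Set (X.extremePoints ℝ))
    (hne : ∀ i, (B i).Nonempty) (hdisj : ∀ i i' t, t ∈ B i → t ∈ B i' → i = i')
    (hB : ∀ J : Set ι, MeasurableSet[baireSigma (X.extremePoints ℝ)] (⋃ i ∈ J, B i)) :
    Countable ι := by
  classical
  by_contra hunc
  rw [← Cardinal.mk_le_aleph0_iff, not_le] at hunc
  have h1 : Cardinal.aleph 1 ≤ Cardinal.mk ι := by
    rw [← Cardinal.succ_aleph0]
    exact Order.succ_le_of_lt hunc
  obtain ⟨p, hp⟩ := Cardinal.le_mk_iff_exists_set.1 h1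
  have h2 : Cardinal.lift.{0} (Cardinal.mk p) ≤ Cardinal.lift.{_} (Cardinal.mk (ℕ → Bool)) := by
    rw [hp]
    simp [Cardinal.aleph0_lt_continuum]
  obtain ⟨j⟩ := Cardinal.lift_mk_le'.1 h2
  have hc : Countable p := by
    refine countable_of_injection hX hconv hL (fun i : p => B i) (fun i => hne i)
      (fun i i' t h h' => Subtype.ext (hdisj i i' t h h')) (fun J => ?_) j j.injective
    have : (⋃ i ∈ J, B (i : ι)) = ⋃ i ∈ (Subtype.val '' J), B i := by
      ext t
      simp
    rw [this]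
    exact hB _
  rw [← Cardinal.mk_le_aleph0_iff, hp] at hc
  exact absurd hc (not_le.2 Cardinal.aleph0_lt_aleph_one)

end

theorem exists_max_sep {F : Type*} [PseudoMetricSpace F] (R : Set F) (ε : ℝ) :
    ∃ A ⊆ R, (∀ a ∈ A, ∀ b ∈ A, a ≠ b → ε ≤ dist a b) ∧
      ∀ x ∈ R, x ∈ A ∨ ∃ a ∈ A, dist x a < ε := by
  obtain ⟨A, hA⟩ := zorn_subset {A : Set F | A ⊆ R ∧ ∀ a ∈ A, ∀ b ∈ A, a ≠ b → ε ≤ dist a b}
    (fun c hc hch => by
      refine ⟨⋃₀ c, ⟨sUnion_subset fun s hs => (hc hs).1, ?_⟩, fun s hs => subset_sUnion_of_mem hs⟩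
      rintro a ⟨s, hs, has⟩ b ⟨s', hs', hbs⟩ hab
      rcases hch.total hs hs' with h | h
      · exact (hc hs').2 a (h has) b hbs hab
      · exact (hc hs).2 a has b (h hbs) hab)
  refine ⟨A, hA.prop.1, hA.prop.2, fun x hx => ?_⟩
  by_contra hcon
  push Not at hcon
  have h1 : insert x A ⊆ A := hA.2 (y := insert x A) ⟨insert_subset hx hA.prop.1, by
    rintro a (rfl | ha) b (rfl | hb) hab
    · exact absurd rfl hab
    · exact hcon.2 b hb
    · rw [dist_comm]; exact hcon.2 a ha
    · exact hA.prop.2 a ha b hb hab⟩ (subset_insert _ _)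
  exact hcon.1 (h1 (mem_insert _ _))

/-- Baire measurable maps on a Lindelöf set of extreme points have separable range. -/
theorem separable_range {E : Type*} [AddCommGroup E] [Module ℝ E] [TopologicalSpace E]
    [IsTopologicalAddGroup E] [ContinuousSMul ℝ E] [LocallyConvexSpace ℝ E] [T2Space E]
    {X : Set E} (hX : IsCompact X) (hconv : Convex ℝ X) (hL : IsLindelof (X.extremePoints ℝ))
    {F : Type*} [PseudoMetricSpace F] (f : X.extremePoints ℝ → F)
    (hf : ∀ U : Set F, IsOpen U → MeasurableSet[baireSigma (X.extremePoints ℝ)] (f ⁻¹' U)) :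
    ∃ C ⊆ range f, C.Countable ∧ range f ⊆ closure C := by
  classical
  apply UniformSpace.subset_countable_closure_of_almost_dense_set
  intro V hV
  obtain ⟨ε, hε, hεV⟩ := Metric.mem_uniformity_dist.1 hV
  obtain ⟨A, hAR, hsep, hmax⟩ := exists_max_sep (range f) ε
  refine ⟨A, ?_, fun x hx => ?_⟩
  · have : Countable A := by
      refine countable_family hX hconv hL (fun a : A => f ⁻¹' Metric.ball (a : F) (ε / 2))
        (fun a => ?_) (fun a b t ha hb => ?_) (fun J => ?_)
      · obtain ⟨t, ht⟩ := hAR a.2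
        refine ⟨t, ?_⟩
        rw [mem_preimage, ht]
        exact Metric.mem_ball_self (by positivity)
      · by_contra hab
        have h1 := hsep a a.2 b b.2 (fun h => hab (Subtype.ext h))
        have h2 : dist (f t) a < ε / 2 := ha
        have h3 : dist (f t) b < ε / 2 := hb
        have h4 := dist_triangle_left (a : F) b (f t)
        linarith
      · have : (⋃ a ∈ J, f ⁻¹' Metric.ball (a : F) (ε / 2)) =
            f ⁻¹' (⋃ a ∈ J, Metric.ball (a : F) (ε / 2)) := by
          simp [preimage_iUnion]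
        rw [this]
        exact hf _ (isOpen_biUnion fun a _ => Metric.isOpen_ball)
    exact this
  · rcases hmax x hx with h | ⟨a, ha, hxa⟩
    · exact mem_biUnion h (UniformSpace.mem_ball_self _ hV)
    · exact mem_biUnion ha (hεV (by rwa [dist_comm]))

end Pool.Agent.V5helper27.EXT
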